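import Pool.Agent.Helper36.KL.Goals

namespace Pool.Agent.Helper71.KL

open Set Filter Topology MeasureTheory Pool.Agent.Helper36.KL
open scoped ContDiff

theorem C1_congr {a b : ℝ} {f f' g g' : ℝ → ℝ → ℝ} (h : C1 a b f f')
    (hf : ∀ t ∈ Icc a b, f t = g t) (hf' : ∀ t ∈ Icc a b, f' t = g' t) : C1 a b g g' where
  mem t ht := by rw [← hf t ht]; exact h.mem t ht
  mem' t ht := by rw [← hf' t ht]; exact h.mem' t ht
  bdd k := by
    obtain ⟨L, hL⟩ := h.bdd k
    exact ⟨L, fun t ht => by rw [← hf t ht]; exact hL t ht⟩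
  bdd' k := by
    obtain ⟨L, hL⟩ := h.bdd' k
    exact ⟨L, fun t ht => by rw [← hf' t ht]; exact hL t ht⟩
  cont k := (h.cont k).congr fun p hp => by
    show iteratedDeriv k (g p.1) p.2 = iteratedDeriv k (f p.1) p.2
    rw [hf p.1 hp.1]
  cont' k := (h.cont' k).congr fun p hp => by
    show iteratedDeriv k (g' p.1) p.2 = iteratedDeriv k (f' p.1) p.2
    rw [hf' p.1 hp.1]
  der k x t ht := by
    rw [← hf' t ht]
    refine (h.der k x t ht).congr (fun s hs => ?_) ?_
    · rw [hf s hs]
    · rw [hf t ht]
  derL2 k t ht δ hδ := by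
    obtain ⟨η, hη, h1⟩ := h.derL2 k t ht δ hδ
    refine ⟨η, hη, fun s hs hst => ?_⟩
    rw [← hf s hs, ← hf t ht, ← hf' t ht]
    exact h1 s hs hst

open Classical in
/-- lift of a curve to `X` -/
noncomputable def lift (u : ℝ → ℝ → ℝ) (t : ℝ) : X := if h : u t ∈ HI then ⟨u t, h⟩ else 0

theorem lift_coe {u : ℝ → ℝ → ℝ} {t : ℝ} (h : u t ∈ HI) : (lift u t).1 = u t := by
  unfold lift
  rw [dif_pos h]

theorem cnt : G_CNT := by
  intro hC hL hA a b K u0 hab hu0 hH
  obtain ⟨-, -, hres, htr, hgl, -⟩ := hC
  obtain ⟨Λ, hΛ, hAP⟩ := hA K (BB 3 ⟨u0, hu0⟩ ⟨u0, hu0⟩) (b - a)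
  obtain ⟨τ, hτ, hloc⟩ := hL Λ
  have key : ∀ j : ℕ, ∃ u, IsGK a (min b (a + (j + 1) * τ)) u ∧ u a = u0 := by
    intro j
    induction j with
    | zero =>
      obtain ⟨u, hu, hu1⟩ := hloc ⟨u0, hu0⟩ hΛ
      refine ⟨fun t => u (t - a), ?_, ?_⟩
      · have h1 := htr 0 τ a _ _ hu
        exact hres _ _ a (min b (a + ((0 : ℕ) + 1) * τ)) _ _ h1 (by linarith)
          ((min_le_right _ _).trans (by push_cast; linarith))
      · show u (a - a) = u0
        rw [sub_self]
        exact hu1
    | succ j ih =>
      obtain ⟨u, hu, hua⟩ := ih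
      rcases le_or_gt b (a + (j + 1) * τ) with hb | hb
      · rw [min_eq_left hb] at hu
        refine ⟨u, ?_, hua⟩
        rw [min_eq_left (by push_cast; linarith)]
        exact hu
      · rw [min_eq_right hb.le] at hu
        set c : ℝ := a + (j + 1) * τ with hc
        have hac : a < c := by rw [hc]; have : 0 < ((j : ℝ) + 1) * τ := by positivity
                               linarith
        have hK := hH c ⟨hac, hb.le⟩ u hu hua
        have hmem : ∀ t ∈ Icc a c, u t ∈ HI := hu.mem
        have hlift : IsGK a c (fun t => (lift u t).1) := by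
          refine C1_congr hu (fun t ht => (lift_coe (hmem t ht)).symm) (fun t ht => ?_)
          show Fun (u t) = Fun (lift u t).1
          rw [lift_coe (hmem t ht)]
        have h1 := hAP a c (lift u) hac.le (by linarith) hlift (fun t ht => by
          rw [lift_coe (hmem t ht)]; exact hK t ht) (by
          have ha : lift u a = ⟨u0, hu0⟩ := Subtype.ext (by
            rw [lift_coe (hmem a ⟨le_rfl, hac.le⟩), hua])
          rw [ha]) c ⟨hac.le, le_rfl⟩
        obtain ⟨v, hv, hv0⟩ := hloc (lift u c) h1
        rw [lift_coe (hmem c ⟨hac.le, le_rfl⟩)] at hv0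
        set c' : ℝ := min b (a + (((j + 1 : ℕ) : ℝ) + 1) * τ) with hc'
        have hcc' : c ≤ c' := by
          rw [hc', le_min_iff]
          refine ⟨hb.le, ?_⟩
          rw [hc]
          push_cast
          nlinarith
        have h2 : C1 c c' (fun t => v (t - c)) (fun t => Fun (v (t - c))) := by
          have h3 := htr 0 τ c _ _ hv
          refine hres _ _ c c' _ _ h3 (by linarith) ((min_le_right _ _).trans ?_)
          rw [hc]
          push_cast
          nlinarith
        have hvc : v (c - c) = u c := by rw [sub_self, hv0]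
        have h4 := hgl a c c' u (fun t => Fun (u t)) (fun t => v (t - c)) (fun t => Fun (v (t - c)))
          hac.le hcc' hu h2 hvc.symm (by show Fun (u c) = Fun (v (c - c)); rw [hvc])
        refine ⟨fun t => if t ≤ c then u t else v (t - c), ?_, ?_⟩
        · unfold IsGK
          have e : (fun t => Fun ((fun t => if t ≤ c then u t else v (t - c)) t)) =
              (fun t => if t ≤ c then Fun (u t) else Fun (v (t - c))) := by
            funext t
            by_cases ht : t ≤ c
            · simp only [ht, if_true]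
            · simp only [ht, if_false]
          rw [e]
          exact h4
        · show (if a ≤ c then u a else v (a - c)) = u0
          rw [if_pos hac.le]
          exact hua
  obtain ⟨n, hn⟩ := exists_nat_ge ((b - a) / τ)
  rw [div_le_iff₀ hτ] at hn
  obtain ⟨u, hu, hua⟩ := key n
  rw [min_eq_left (by nlinarith)] at hu
  exact ⟨u, hu, hua⟩

end Pool.Agent.Helper71.KL
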