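import Pool.Agent.Helper36.KL.Goals

namespace Pool.Agent.Helper71.KL

open Set Filter Topology MeasureTheory Pool.Agent.Helper36.KL
open scoped ContDiff

theorem BB_diag (m : ℕ) (u : X) :
    BB m u u = ∑ k ∈ Finset.range (m + 1), ∫ x, iteratedDeriv k u.1 x ^ 2 := by
  rw [BB_apply]
  refine Finset.sum_congr rfl fun k _ => integral_congr_ae (ae_of_all _ fun x => ?_)
  show iteratedDeriv k u.1 x * iteratedDeriv k u.1 x = iteratedDeriv k u.1 x ^ 2
  ring

theorem int_nonneg (k : ℕ) (u : X) : 0 ≤ ∫ x, iteratedDeriv k u.1 x ^ 2 :=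
  integral_nonneg fun _ => by positivity

theorem BB_nonneg (m : ℕ) (u : X) : 0 ≤ BB m u u := by
  rw [BB_diag]
  exact Finset.sum_nonneg fun k _ => int_nonneg k u

theorem BB_mono {m m' : ℕ} (h : m ≤ m') (u : X) : BB m u u ≤ BB m' u u := by
  rw [BB_diag, BB_diag]
  exact Finset.sum_le_sum_of_subset_of_nonneg (Finset.range_mono (by omega))
    fun k _ _ => int_nonneg k u

theorem BB_D (m j : ℕ) (u : X) : BB m (D j u) (D j u) ≤ BB (m + j) u u := by
  rw [BB_diag, BB_diag]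
  have e : ∀ k, ∫ x, iteratedDeriv k (D j u).1 x ^ 2 = ∫ x, iteratedDeriv (j + k) u.1 x ^ 2 := by
    intro k
    have : iteratedDeriv k (D j u).1 = iteratedDeriv (j + k) u.1 := by
      show iteratedDeriv k (iteratedDeriv j u.1) = _
      rw [iter_iter, add_comm]
    rw [this]
  simp only [e]
  rw [show m + j + 1 = j + (m + 1) by ring, Finset.sum_range_add
    (fun k => ∫ x, iteratedDeriv k u.1 x ^ 2) j (m + 1)]
  linarith [Finset.sum_nonneg (s := Finset.range j) fun k _ => int_nonneg k u]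

theorem BB_symm (m : ℕ) (u v : X) : BB m u v = BB m v u := by
  rw [BB_apply, BB_apply]
  refine Finset.sum_congr rfl fun k _ => integral_congr_ae (ae_of_all _ fun x => ?_)
  show iteratedDeriv k u.1 x * iteratedDeriv k v.1 x = iteratedDeriv k v.1 x * iteratedDeriv k u.1 x
  ring

theorem BB_add (m : ℕ) (u v : X) : BB m (u + v) (u + v) ≤ 2 * (BB m u u + BB m v v) := by
  have h := BB_nonneg m (u - v)
  simp only [map_sub, map_add, LinearMap.sub_apply, LinearMap.add_apply] at h ⊢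
  have := BB_symm m u v
  linarith

theorem BB_neg (m : ℕ) (u : X) : BB m (-u) (-u) = BB m u u := by
  simp only [map_neg, LinearMap.neg_apply, neg_neg]

theorem sup_le2 {u : X} {L : ℝ} (h : BB 2 u u ≤ L) (x : ℝ) :
    u.1 x ^ 2 ≤ L ∧ iteratedDeriv 1 u.1 x ^ 2 ≤ L := by
  rw [BB_diag] at h
  simp only [Finset.sum_range_succ, Finset.sum_range_zero, zero_add] at h
  have h0 := int_nonneg 0 u
  have h1 := int_nonneg 1 u
  have h2 := int_nonneg 2 u
  have s0 := sup_sq_le u.2 x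
  have s1 := sup_sq_le (iter_mem u.2 1) x
  rw [iter_iter, show (1 + 1 : ℕ) = 2 from rfl] at s1
  simp only [iteratedDeriv_zero] at h h0
  constructor <;> linarith

/-- fifth power -/
noncomputable def p5 (u : X) : X := ⟨u.1 ^ 5, pow_mem u.2 4⟩

/-- the quotient `(u^5 - v^5) / (u - v)` -/
noncomputable def PX (u v : X) : X :=
  mulX (mulX u u) (mulX u u) + mulX (mulX u u) (mulX u v) + mulX (mulX u u) (mulX v v) +
    mulX (mulX u v) (mulX v v) + mulX (mulX v v) (mulX v v)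

theorem p5_sub (u v : X) : p5 u - p5 v = mulX (u - v) (PX u v) := by
  refine Subtype.ext (funext fun x => ?_)
  show u.1 x ^ 5 - v.1 x ^ 5 = (u.1 x - v.1 x) * _
  show u.1 x ^ 5 - v.1 x ^ 5 = (u.1 x - v.1 x) * ((u.1 x * u.1 x) * (u.1 x * u.1 x) +
    (u.1 x * u.1 x) * (u.1 x * v.1 x) + (u.1 x * u.1 x) * (v.1 x * v.1 x) +
    (u.1 x * v.1 x) * (v.1 x * v.1 x) + (v.1 x * v.1 x) * (v.1 x * v.1 x))
  ring

theorem FX_eq (u : X) : FX u = -(D 3 u) - D 1 (p5 u) := rfl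

theorem FX_sub (u v : X) : FX u - FX v = -(D 3 (u - v) + D 1 (mulX (u - v) (PX u v))) := by
  rw [FX_eq, FX_eq, ← p5_sub, map_sub, map_sub]
  abel

theorem ip_D (u v : X) : BB 0 (D 1 u) v = -BB 0 u (D 1 v) := by
  rw [BB_apply, BB_apply]
  simp only [zero_add, Finset.range_one, Finset.sum_singleton, iteratedDeriv_zero]
  exact ibp u.2 v.2

theorem D_D (j k : ℕ) (u : X) : D j (D k u) = D (j + k) u :=
  Subtype.ext (iter_iter u.1 j k)

theorem skew3 (w : X) : BB 0 w (D 3 w) = 0 := by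
  have h1 : BB 0 (D 1 w) (D 1 (D 1 w)) = 0 := by
    have := ip_D (D 1 w) (D 1 w)
    rw [BB_symm 0 (D 1 (D 1 w)) (D 1 w)] at this
    linarith
  have h2 : D 3 w = D 1 (D 1 (D 1 w)) := by rw [D_D, D_D]
  have h3 := ip_D w (D 1 (D 1 w))
  rw [h2]
  linarith

theorem D1_mul (u v : X) : D 1 (mulX u v) = mulX (D 1 u) v + mulX u (D 1 v) := by
  refine Subtype.ext (funext fun x => ?_)
  show iteratedDeriv 1 (u.1 * v.1) x = iteratedDeriv 1 u.1 x * v.1 x + u.1 x * iteratedDeriv 1 v.1 x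
  have hu' : HasDerivAt u.1 (iteratedDeriv 1 u.1 x) x := by simpa using hasDerivAt_iter u.2.1 0 x
  have hv' : HasDerivAt v.1 (iteratedDeriv 1 v.1 x) x := by simpa using hasDerivAt_iter v.2.1 0 x
  rw [iteratedDeriv_one, (hu'.mul hv').deriv]

theorem BB0 (u v : X) : BB 0 u v = ∫ x, u.1 x * v.1 x := by
  rw [BB_apply]
  simp only [zero_add, Finset.range_one, Finset.sum_singleton, iteratedDeriv_zero]

/-- `∫ w_x w P = - (1/2) ∫ w^2 P_x` -/
theorem half (w P : X) : BB 0 (D 1 w) (mulX w P) = -(1 / 2) * ∫ x, w.1 x ^ 2 * (D 1 P).1 x := by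
  have h := ip_D w (mulX w P)
  rw [D1_mul, map_add] at h
  have e1 : BB 0 w (mulX (D 1 w) P) = BB 0 (D 1 w) (mulX w P) := by
    rw [BB0, BB0]
    refine integral_congr_ae (ae_of_all _ fun x => ?_)
    show w.1 x * ((D 1 w).1 x * P.1 x) = (D 1 w).1 x * (w.1 x * P.1 x)
    ring
  have e2 : BB 0 w (mulX w (D 1 P)) = ∫ x, w.1 x ^ 2 * (D 1 P).1 x := by
    rw [BB0]
    refine integral_congr_ae (ae_of_all _ fun x => ?_)
    show w.1 x * (w.1 x * (D 1 P).1 x) = w.1 x ^ 2 * (D 1 P).1 x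
    ring
  rw [e1, e2] at h
  linarith

theorem PX_bound {u v : X} {L : ℝ} (hu : BB 2 u u ≤ L) (hv : BB 2 v v ≤ L) (x : ℝ) :
    |(D 1 (PX u v)).1 x| ≤ 20 * L ^ 2 := by
  obtain ⟨hu0, hu1⟩ := sup_le2 hu x
  obtain ⟨hv0, hv1⟩ := sup_le2 hv x
  have hL : 0 ≤ L := (BB_nonneg 2 u).trans hu
  set s := Real.sqrt L with hs
  have hss : s * s = L := Real.mul_self_sqrt hL
  have hs0 : 0 ≤ s := Real.sqrt_nonneg L
  have a0 : |u.1 x| ≤ s := Real.abs_le_sqrt hu0
  have a1 : |iteratedDeriv 1 u.1 x| ≤ s := Real.abs_le_sqrt hu1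
  have b0 : |v.1 x| ≤ s := Real.abs_le_sqrt hv0
  have b1 : |iteratedDeriv 1 v.1 x| ≤ s := Real.abs_le_sqrt hv1
  unfold PX
  simp only [map_add, D1_mul]
  show |(((iteratedDeriv 1 u.1 x * u.1 x + u.1 x * iteratedDeriv 1 u.1 x) * (u.1 x * u.1 x) +
      (u.1 x * u.1 x) * (iteratedDeriv 1 u.1 x * u.1 x + u.1 x * iteratedDeriv 1 u.1 x)) +
    ((iteratedDeriv 1 u.1 x * u.1 x + u.1 x * iteratedDeriv 1 u.1 x) * (u.1 x * v.1 x) +
      (u.1 x * u.1 x) * (iteratedDeriv 1 u.1 x * v.1 x + u.1 x * iteratedDeriv 1 v.1 x)) +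
    ((iteratedDeriv 1 u.1 x * u.1 x + u.1 x * iteratedDeriv 1 u.1 x) * (v.1 x * v.1 x) +
      (u.1 x * u.1 x) * (iteratedDeriv 1 v.1 x * v.1 x + v.1 x * iteratedDeriv 1 v.1 x)) +
    ((iteratedDeriv 1 u.1 x * v.1 x + u.1 x * iteratedDeriv 1 v.1 x) * (v.1 x * v.1 x) +
      (u.1 x * v.1 x) * (iteratedDeriv 1 v.1 x * v.1 x + v.1 x * iteratedDeriv 1 v.1 x)) +
    ((iteratedDeriv 1 v.1 x * v.1 x + v.1 x * iteratedDeriv 1 v.1 x) * (v.1 x * v.1 x) +
      (v.1 x * v.1 x) * (iteratedDeriv 1 v.1 x * v.1 x + v.1 x * iteratedDeriv 1 v.1 x)))| ≤ _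
  have m2 : ∀ a b : ℝ, |a| ≤ s → |b| ≤ s → |a * b| ≤ L := by
    intro a b ha hb
    rw [abs_mul, ← hss]
    exact mul_le_mul ha hb (abs_nonneg _) hs0
  have m4 : ∀ a b : ℝ, |a| ≤ L → |b| ≤ L → |a * b| ≤ L ^ 2 := by
    intro a b ha hb
    rw [abs_mul, sq]
    exact mul_le_mul ha hb (abs_nonneg _) hL
  have d2 : ∀ a b : ℝ, |a| ≤ L → |b| ≤ L → |a + b| ≤ 2 * L := by
    intro a b ha hb
    exact (abs_add_le _ _).trans (by linarith)
  have p1 : ∀ a b c d : ℝ, |a| ≤ L → |b| ≤ L → |c| ≤ L → |d| ≤ L →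
      ∀ e f : ℝ, |e| ≤ L → |f| ≤ L →
      |(a + b) * e + f * (c + d)| ≤ 4 * L ^ 2 := by
    intro a b c d ha hb hc hd e f he hf
    have h1 : |(a + b) * e| ≤ 2 * L * L := by
      rw [abs_mul]
      exact mul_le_mul (d2 a b ha hb) he (abs_nonneg _) (by linarith)
    have h2 : |f * (c + d)| ≤ L * (2 * L) := by
      rw [abs_mul]
      exact mul_le_mul hf (d2 c d hc hd) (abs_nonneg _) hL
    refine (abs_add_le _ _).trans ?_
    nlinarith
  have uu := m2 _ _ a0 a0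
  have uv := m2 _ _ a0 b0
  have vv := m2 _ _ b0 b0
  have u'u := m2 _ _ a1 a0
  have uu' := m2 _ _ a0 a1
  have u'v := m2 _ _ a1 b0
  have uv' := m2 _ _ a0 b1
  have v'v := m2 _ _ b1 b0
  have vv' := m2 _ _ b0 b1
  have t1 := p1 _ _ _ _ u'u uu' u'u uu' _ _ uu uu
  have t2 := p1 _ _ _ _ u'u uu' u'v uv' _ _ uv uu
  have t3 := p1 _ _ _ _ u'u uu' v'v vv' _ _ vv uu
  have t4 := p1 _ _ _ _ u'v uv' v'v vv' _ _ vv uv
  have t5 := p1 _ _ _ _ v'v vv' v'v vv' _ _ vv vv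
  refine (abs_add_le _ _).trans ?_
  have r1 := abs_add_le
    ((iteratedDeriv 1 u.1 x * u.1 x + u.1 x * iteratedDeriv 1 u.1 x) * (u.1 x * u.1 x) +
      (u.1 x * u.1 x) * (iteratedDeriv 1 u.1 x * u.1 x + u.1 x * iteratedDeriv 1 u.1 x))
    ((iteratedDeriv 1 u.1 x * u.1 x + u.1 x * iteratedDeriv 1 u.1 x) * (u.1 x * v.1 x) +
      (u.1 x * u.1 x) * (iteratedDeriv 1 u.1 x * v.1 x + u.1 x * iteratedDeriv 1 v.1 x))
  have r2 := abs_add_le
    (((iteratedDeriv 1 u.1 x * u.1 x + u.1 x * iteratedDeriv 1 u.1 x) * (u.1 x * u.1 x) +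
      (u.1 x * u.1 x) * (iteratedDeriv 1 u.1 x * u.1 x + u.1 x * iteratedDeriv 1 u.1 x)) +
    ((iteratedDeriv 1 u.1 x * u.1 x + u.1 x * iteratedDeriv 1 u.1 x) * (u.1 x * v.1 x) +
      (u.1 x * u.1 x) * (iteratedDeriv 1 u.1 x * v.1 x + u.1 x * iteratedDeriv 1 v.1 x)))
    ((iteratedDeriv 1 u.1 x * u.1 x + u.1 x * iteratedDeriv 1 u.1 x) * (v.1 x * v.1 x) +
      (u.1 x * u.1 x) * (iteratedDeriv 1 v.1 x * v.1 x + v.1 x * iteratedDeriv 1 v.1 x))
  have r3 := abs_add_le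
    (((iteratedDeriv 1 u.1 x * u.1 x + u.1 x * iteratedDeriv 1 u.1 x) * (u.1 x * u.1 x) +
      (u.1 x * u.1 x) * (iteratedDeriv 1 u.1 x * u.1 x + u.1 x * iteratedDeriv 1 u.1 x)) +
    ((iteratedDeriv 1 u.1 x * u.1 x + u.1 x * iteratedDeriv 1 u.1 x) * (u.1 x * v.1 x) +
      (u.1 x * u.1 x) * (iteratedDeriv 1 u.1 x * v.1 x + u.1 x * iteratedDeriv 1 v.1 x)) +
    ((iteratedDeriv 1 u.1 x * u.1 x + u.1 x * iteratedDeriv 1 u.1 x) * (v.1 x * v.1 x) +
      (u.1 x * u.1 x) * (iteratedDeriv 1 v.1 x * v.1 x + v.1 x * iteratedDeriv 1 v.1 x)))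
    ((iteratedDeriv 1 u.1 x * v.1 x + u.1 x * iteratedDeriv 1 v.1 x) * (v.1 x * v.1 x) +
      (u.1 x * v.1 x) * (iteratedDeriv 1 v.1 x * v.1 x + v.1 x * iteratedDeriv 1 v.1 x))
  linarith

theorem lip : G_LIP := by
  intro hPR
  obtain ⟨hPR, -⟩ := hPR
  constructor
  · intro L
    refine ⟨10 * L ^ 2, fun u v hu hv => ?_⟩
    rw [FX_sub, map_neg, map_add, skew3, zero_add]
    have h1 := ip_D (u - v) (mulX (u - v) (PX u v))
    rw [half] at h1
    rw [← h1, BB0]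
    have i1 : Integrable (fun x => (u - v).1 x ^ 2) := int_sq (u - v).2
    have e : ∀ x, (u - v).1 x * (u - v).1 x = (u - v).1 x ^ 2 := fun x => by ring
    simp only [e]
    have hm := mul_mem (mul_mem (u - v).2 (u - v).2) (D 1 (PX u v)).2
    have i2 : Integrable (fun x => (u - v).1 x ^ 2 * (D 1 (PX u v)).1 x) := by
      have := int_mul (mul_mem (u - v).2 (u - v).2) (D 1 (PX u v)).2
      refine this.congr (ae_of_all _ fun x => ?_)
      show (u - v).1 x * (u - v).1 x * (D 1 (PX u v)).1 x = _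
      rw [e]
    rw [← integral_const_mul, ← integral_const_mul]
    refine integral_mono (i2.const_mul _) (i1.const_mul _) fun x => ?_
    show -(1 / 2) * ((u - v).1 x ^ 2 * (D 1 (PX u v)).1 x) ≤ 10 * L ^ 2 * (u - v).1 x ^ 2
    have hb := PX_bound hu hv x
    have h2 := (abs_le.1 hb).1
    nlinarith [sq_nonneg ((u - v).1 x)]
  · intro m L
    obtain ⟨C, hC⟩ := hPR (m + 1) (by omega)
    set K := max C 0 with hK
    have hK0 : 0 ≤ K := le_max_right _ _
    have hCK : ∀ a b : X, ∀ A B : ℝ, BB (m + 1) a a ≤ A → BB (m + 1) b b ≤ B →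
        BB (m + 1) (mulX a b) (mulX a b) ≤ K * (A * B) := by
      intro a b A B ha hb
      refine (hC a b).trans ?_
      have h0 := mul_nonneg (BB_nonneg (m + 1) a) (BB_nonneg (m + 1) b)
      have h1 : BB (m + 1) a a * BB (m + 1) b b ≤ A * B :=
        mul_le_mul ha hb (BB_nonneg _ _) ((BB_nonneg _ _).trans ha)
      calc C * (BB (m + 1) a a * BB (m + 1) b b)
          ≤ K * (BB (m + 1) a a * BB (m + 1) b b) :=
            mul_le_mul_of_nonneg_right (le_max_left _ _) h0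
        _ ≤ K * (A * B) := mul_le_mul_of_nonneg_left h1 hK0
    set A := K * (L * L) with hA
    set M := K * (A * A) with hM
    refine ⟨2 * (1 + K * (80 * M)), fun u v hu hv => ?_⟩
    have hu' : BB (m + 1) u u ≤ L := (BB_mono (by omega) u).trans hu
    have hv' : BB (m + 1) v v ≤ L := (BB_mono (by omega) v).trans hv
    have huu := hCK u u L L hu' hu'
    have huv := hCK u v L L hu' hv'
    have hvv := hCK v v L L hv' hv'
    have hP : BB (m + 1) (PX u v) (PX u v) ≤ 80 * M := by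
      unfold PX
      have t1 := hCK _ _ _ _ huu huu
      have t2 := hCK _ _ _ _ huu huv
      have t3 := hCK _ _ _ _ huu hvv
      have t4 := hCK _ _ _ _ huv hvv
      have t5 := hCK _ _ _ _ hvv hvv
      have s1 := BB_add (m + 1) (mulX (mulX u u) (mulX u u)) (mulX (mulX u u) (mulX u v))
      have s2 := BB_add (m + 1) (mulX (mulX u u) (mulX u u) + mulX (mulX u u) (mulX u v))
        (mulX (mulX u u) (mulX v v))
      have s3 := BB_add (m + 1) (mulX (mulX u u) (mulX u u) + mulX (mulX u u) (mulX u v) +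
        mulX (mulX u u) (mulX v v)) (mulX (mulX u v) (mulX v v))
      have s4 := BB_add (m + 1) (mulX (mulX u u) (mulX u u) + mulX (mulX u u) (mulX u v) +
        mulX (mulX u u) (mulX v v) + mulX (mulX u v) (mulX v v)) (mulX (mulX v v) (mulX v v))
      have hM0 : 0 ≤ M := (BB_nonneg _ _).trans t1
      linarith
    have hw : BB (m + 1) (u - v) (u - v) ≤ BB (m + 3) (u - v) (u - v) := BB_mono (by omega) _
    have h1 := hCK (u - v) (PX u v) _ _ hw hP
    have h2 := BB_D m 3 (u - v)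
    have h3 := BB_D m 1 (mulX (u - v) (PX u v))
    have h4 := BB_add m (D 3 (u - v)) (D 1 (mulX (u - v) (PX u v)))
    rw [FX_sub, BB_neg]
    nlinarith

end Pool.Agent.Helper71.KL
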